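import Pool.Agent.L7h72.NQ.Brac

set_option autoImplicit false

/-!
# Record prime gaps around all bracket polynomials `F(n, ⌊P(n)⌋)`

Let `f(Z) = log Z (log₂ Z)² log₄ Z / (log₃ Z)²` (iterated natural logarithms), the size of the largest prime-free
intervals that are known to occur up to `Z`.

Let `P` be ANY real polynomial with an irrational coefficient in positive degree, for instance `√2 t` or
`t ^ 5 + π t`. For every `k` and `ε > 0` there is `κ > 0` such that for arbitrarily large `Z` - for all large `Z` if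
no coefficient of positive degree is a Liouville number - every interval `(M, M + Z]`, `M ≥ 0`, contains at least
`Z ^ (1 - ε)` integers `n` with the following property: for ALL polynomials `F` in two variables with integral
coefficients, of degree at most `k` and with coefficients at most `k` in absolute value, such that `F - t` is
irreducible over the complex numbers for at least one complex number `t` (that is, `F` is not constant and not
of the form `g(H)` with `deg g ≥ 2`), every integer `m` with `|m - F(n, ⌊P(n)⌋)| ≤ κ f(Z)` has a prime factor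
`≤ Z ^ ε`.

So there are record gaps around all the bracket polynomials `n ⌊√2 n⌋`, `n ³ - ⌊√2 n⌋ ²`, `n ² ⌊√2 n⌋ + n - 7`, …
(`n` and `⌊√2 n⌋` included) at one and the same `n`. The starting file `MP_711652_nt.IrrationalPolynomials`
(helper915) has record gaps around the number `P(n)`, which is the case `F = Y`; here the bracket operation is
followed by an arbitrary noncomposite polynomial.

Method. By Weyl differencing (helper915, helper534) the vectors `(n, ⌊P(n)⌋)` are well distributed modulo the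
integers up to a small power of `Z`, with a power saving. The covering sieve for well distributed families of
integer vectors (helper837, helper542) is carried out with a bounded number of exceptional primes for every value
(`Pool.Agent.L7h72.NQ`); the densities and coincidences of the values of noncomposite polynomials modulo the
primes are those of `MP_3bc45c_nt.NoncompositePolynomials` (`Pool.Agent.L7h72.NP`).
-/

namespace Pool.Agent.Results.MP_c853c5_nt.BracketPolynomials

open Filter

/-- The record scale `f(Z) = log Z (log₂ Z)² log₄ Z / (log₃ Z)²` (iterated natural logarithms). -/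
noncomputable def f (Z : ℝ) : ℝ :=
  Real.log Z * (Real.log (Real.log Z)) ^ 2 * Real.log (Real.log (Real.log (Real.log Z))) /
    (Real.log (Real.log (Real.log Z))) ^ 2

/-- `F` is noncomposite: `F - t` is irreducible over `ℂ` for some complex number `t`. -/
def Noncomposite (F : MvPolynomial (Fin 2) ℤ) : Prop :=
  ∃ t : ℂ, Irreducible (MvPolynomial.map (Int.castRingHom ℂ) F - MvPolynomial.C t)

/-- For all noncomposite `F ∈ ℤ[X, Y]` of total degree at most `k` and with coefficients at most `k` in absolute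
value, every integer at distance at most `d` from `F(x, y)` has a prime factor `≤ w`. -/
def AllNear (k : ℕ) (d w : ℝ) (x y : ℤ) : Prop :=
  ∀ F : MvPolynomial (Fin 2) ℤ, F.totalDegree ≤ k → (∀ m, |F.coeff m| ≤ k) → Noncomposite F →
    ∀ m : ℤ, |(m : ℝ) - (MvPolynomial.eval ![x, y] F : ℤ)| ≤ d →
      ∃ p : ℕ, p.Prime ∧ (p : ℝ) ≤ w ∧ (p : ℤ) ∣ m

/-- The interval `(M, M + Z]` contains at least `Z ^ (1 - ε)` integers `n` with the property `AllNear` for the
point `(n, ⌊P(n)⌋)`, the distance `κ f(Z)` and prime factors `≤ Z ^ ε`. -/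
def Many (k : ℕ) (P : Polynomial ℝ) (κ ε Z M : ℝ) : Prop :=
  ∃ G : Finset ℕ, Z ^ (1 - ε) ≤ (G.card : ℝ) ∧ ∀ n ∈ G, M < n ∧ (n : ℝ) ≤ M + Z ∧
    AllNear k (κ * f Z) (Z ^ ε) n ⌊P.eval (n : ℝ)⌋

theorem result (k : ℕ) (P : Polynomial ℝ) (h : ∃ i, 1 ≤ i ∧ Irrational (P.coeff i)) (ε : ℝ)
    (hε : 0 < ε) :
    ∃ κ : ℝ, 0 < κ ∧
      (∀ Z₁ : ℝ, ∃ Z : ℝ, Z₁ ≤ Z ∧ ∀ M : ℝ, 0 ≤ M → Many k P κ ε Z M) ∧
      ((∀ i, 1 ≤ i → ¬ Liouville (P.coeff i)) →
        ∃ Z₀ : ℝ, ∀ Z : ℝ, Z₀ ≤ Z → ∀ M : ℝ, 0 ≤ M → Many k P κ ε Z M) := by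
  obtain ⟨κ, hκ, h1, h2⟩ := Pool.Agent.L7h72.NQ.bracket_both
    (fun F : Pool.Agent.L7h72.NQ.NCk k => F.1) (Pool.Agent.L7h72.NQ.crit_NC k) P h ε hε
  refine ⟨κ, hκ, fun Z₁ => ?_, fun hL => ?_⟩
  · obtain ⟨Z, hZ, h3⟩ := h1 Z₁
    refine ⟨Z, hZ, fun M hM => ?_⟩
    obtain ⟨G, hG, hG2⟩ := h3 M hM
    refine ⟨G, hG, fun n hn => ?_⟩
    obtain ⟨g1, g2, g3⟩ := hG2 n hn
    exact ⟨g1, g2, fun F hF1 hF2 hF3 m hm => g3 ⟨F, hF1, hF2, hF3⟩ m hm⟩
  · obtain ⟨Z₀, hZ₀⟩ := eventually_atTop.1 (h2 hL)
    refine ⟨Z₀, fun Z hZ M hM => ?_⟩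
    obtain ⟨G, hG, hG2⟩ := hZ₀ Z hZ M hM
    refine ⟨G, hG, fun n hn => ?_⟩
    obtain ⟨g1, g2, g3⟩ := hG2 n hn
    exact ⟨g1, g2, fun F hF1 hF2 hF3 m hm => g3 ⟨F, hF1, hF2, hF3⟩ m hm⟩

end Pool.Agent.Results.MP_c853c5_nt.BracketPolynomials
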