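import Pool.Agent.L7h34.NG.Quad

set_option autoImplicit false

/-! # Long prime-free intervals which begin with a long gap between the norms

Richards (1982): for infinitely many `n` none of the integers `n + j`, `1 ≤ j ≤ c log n`, is a sum of two
squares. This is still the best known order. We show that such a gap can be the beginning of a prime-free
interval longer than all published ones: for every integer `Δ` which is not a square, in every interval
`(M, M + X]` there is an integer `n` such that

* `n + j` is not prime for `1 ≤ j ≤ c log X (log₂ X)^(3/2) / (log₃ X)^(1/2)`;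
* `n + j` is not represented by any integral binary quadratic form of discriminant `Δ`, `1 ≤ j ≤ c log X`.

The general theorem is about abelian number fields: let `S` be a nonempty finite set of subgroups of `(ℤ/N)ˣ`
whose union is not everything, `δ` the inverse of the index of their intersection. There are `n` such that `n + j` is not
prime for `1 ≤ j ≤ c log X (log₂ X)^(1+δ) / (log₃ X)^δ`, and for `1 ≤ j ≤ c log X` and all `H ∈ S` some prime
`p` not dividing `N` divides `n + j` to an exponent `v` with `p ^ v ∉ H` (so `n + j` is not the norm of an integral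
ideal of the subfield of the `N`-th cyclotomic field that belongs to `H`).

Proof. For the primes outside the intersection of the groups `H`, up to a small multiple of `log X`, the classes of Richards:
`N n ≡ a` modulo a high power of `p`; so `N (n + j)` behaves like `N j + a`, which has a prime power factor outside `H`.
For the primes of the intersection a choice of the classes by averaging. The integers `n + j` not yet composite have
`N j + a = m q` with a small `m` composed of primes of the intersection and a large prime `q`; there are at most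
`c log X` of them, and they are made composite by the covering sieve of the starting files with primes between
`(log X)²` and `X^(1/10)`. -/

namespace Pool.Agent.Results.MP_c853c5_nt.GapsOfPrimesAndNorms

open Finset

/-- `log X (log₂ X)^(1+δ) / (log₃ X)^δ` -/
noncomputable def len (δ X : ℝ) : ℝ :=
  Real.log X * (Real.log (Real.log X)) ^ (1 + δ) / (Real.log (Real.log (Real.log X))) ^ δ

theorem result :
    (∀ Δ : ℤ, ¬ IsSquare Δ → ∃ c : ℝ, 0 < c ∧ ∃ X₀ : ℝ, ∀ X : ℝ, X₀ ≤ X → ∀ M : ℕ, ∃ n : ℕ,
      M < n ∧ (n : ℝ) ≤ M + X ∧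
      (∀ j : ℕ, 1 ≤ j → (j : ℝ) ≤ c * len (1 / 2) X → ¬ (n + j).Prime) ∧
      ∀ j : ℕ, 1 ≤ j → (j : ℝ) ≤ c * Real.log X → ∀ A B C x y : ℤ, B ^ 2 - 4 * A * C = Δ →
        ((n + j : ℕ) : ℤ) ≠ A * x ^ 2 + B * x * y + C * y ^ 2) ∧
    (∀ (N : ℕ) [NeZero N] (S : Finset (Subgroup (ZMod N)ˣ)), S.Nonempty → ∀ a : (ZMod N)ˣ,
      (∀ H ∈ S, a ∉ H) → ∃ c : ℝ, 0 < c ∧ ∃ X₀ : ℝ, ∀ X : ℝ, X₀ ≤ X → ∀ M : ℕ, ∃ n : ℕ,
      M < n ∧ (n : ℝ) ≤ M + X ∧
      (∀ j : ℕ, 1 ≤ j → (j : ℝ) ≤ c * len ((S.inf id).index : ℝ)⁻¹ X → ¬ (n + j).Prime) ∧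
      ∀ j : ℕ, 1 ≤ j → (j : ℝ) ≤ c * Real.log X → ∀ H ∈ S, ∃ (p : ℕ) (u : (ZMod N)ˣ),
        p.Prime ∧ (u : ZMod N) = p ∧ u ^ ((n + j).factorization p) ∉ H) :=
  ⟨fun Δ hΔ => Pool.Agent.L7h34.NG.quad Δ hΔ, fun N _ S hS a ha => Pool.Agent.L7h34.NG.abel N S hS a ha⟩

end Pool.Agent.Results.MP_c853c5_nt.GapsOfPrimesAndNorms
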