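import Pool.Agent.L7h72.NQ.ModP
import Pool.Agent.L7h72.NQ.MainA
import Pool.Agent.H498R2.SM_T8
import Pool.Agent.Q224.NR.WeilUV

set_option autoImplicit false

/-!
# Record prime gaps around all noncomposite polynomials on modular hyperbolas and on curves modulo a prime

Let `f(p) = log p (log₂ p)² log₄ p / (log₃ p)²`, the size of the largest gaps between primes that are known to
occur up to `p`. An integer point `(x, y)` is called rich if for ALL polynomials `F` in two variables with integral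
coefficients, of degree at most `k` and with coefficients at most `k` in absolute value, such that `F - t` is
irreducible over the complex numbers for at least one complex number `t` (that is, `F` is not constant and not of
the form `g(H)` with `deg g ≥ 2`), every integer at distance at most `κ f(p)` from `F(x, y)` has a prime factor
`≤ p ^ δ`.

(A) Let `R_i`, `i ∈ S`, be any finite family of points modulo `p` all of whose Fourier coefficients at nonzero
frequencies are at most `|S| p ^ (-ε)`. In every box with sides in `[p ^ δ, p]` and area at least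
`p ^ (2 - ε + δ)`, at least `p ^ (-δ)` times the expected number `|S| L₀ L₁ / p²` of the points `R_i` are
represented by rich integer points.
(B) For every `c ≠ 0` modulo `p` every box with sides at most `p` and area `≥ p ^ (3 / 2 + δ)` contains at least
`p ^ (-1 - δ) L₀ L₁` rich points `(x, y)` with `x y ≡ c (mod p)`.
(C) The same holds for `y ≡ P(x) (mod p)` if `P` is an integral polynomial of degree at least 2 and `p` is large in
terms of `P`.

Here `κ` depends on `k` and `δ` only. For general `F` the values have some primes at which they are not taken with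
the expected frequency, so the record covering sieve is carried out with a bounded number of exceptional primes for
every value (`Pool.Agent.L7h72.NQ`); completion of the sums over the family from `Pool.Agent.N39.RG` (helper39);
Weil's bounds for Kloosterman sums (helper498) and for sums of polynomials.
-/

namespace Pool.Agent.Results.MP_c853c5_nt.NoncompositeModP

open Finset Filter

/-- The record scale `f(x) = log x (log₂ x)² log₄ x / (log₃ x)²` (iterated natural logarithms). -/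
noncomputable def f (x : ℝ) : ℝ :=
  Real.log x * (Real.log (Real.log x)) ^ 2 * Real.log (Real.log (Real.log (Real.log x))) /
    (Real.log (Real.log (Real.log x))) ^ 2

/-- For every polynomial `F ∈ ℤ[X, Y]` of total degree at most `k` and with all coefficients at most `k` in absolute
value for which `F - t` is irreducible over `ℂ` for some complex number `t`, every integer `n` at distance at most
`κ f(p)` from `F(z)` has a prime factor `≤ p ^ δ`. -/
def Rich (k : ℕ) (κ δ : ℝ) (p : ℕ) (z : Fin 2 → ℤ) : Prop :=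
  ∀ F : MvPolynomial (Fin 2) ℤ, F.totalDegree ≤ k → (∀ m, |F.coeff m| ≤ k) →
    (∃ t : ℂ, Irreducible (MvPolynomial.map (Int.castRingHom ℂ) F - MvPolynomial.C t)) →
    ∀ n : ℤ, |(n : ℝ) - (MvPolynomial.eval z F : ℤ)| ≤ κ * f p →
      ∃ l : ℕ, l.Prime ∧ (l : ℝ) ≤ (p : ℝ) ^ δ ∧ (l : ℤ) ∣ n

/-- In every box `(M₀, M₀ + L₀] × (M₁, M₁ + L₁]` with sides at most `p` and area at least `p ^ (3 / 2 + δ)` there are
at least `p ^ (-1 - δ) L₀ L₁` rich points whose residues modulo `p` are in the relation `E`. -/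
def ManyRich (k : ℕ) (κ δ : ℝ) (p : ℕ) (E : ZMod p → ZMod p → Prop) : Prop :=
  ∀ (M : Fin 2 → ℤ) (L : Fin 2 → ℕ), (∀ j, L j ≤ p) → (p : ℝ) ^ (3 / 2 + δ) ≤ (L 0 : ℝ) * L 1 →
    ∃ G : Finset (Fin 2 → ℤ), (p : ℝ) ^ (-1 - δ) * ((L 0 : ℝ) * L 1) ≤ G.card ∧
      ∀ z ∈ G, (∀ j, M j < z j ∧ z j ≤ M j + L j) ∧ E (z 0) (z 1) ∧ Rich k κ δ p z

open scoped Classical in
theorem main (k : ℕ) (δ : ℝ) (hδ : 0 < δ) (hδ1 : δ ≤ 1) :
    ∃ κ : ℝ, 0 < κ ∧ ∃ p₀ : ℕ, ∀ (p : ℕ) [Fact p.Prime], p₀ ≤ p →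
    ∀ (ε : ℝ) (ι : Type) (S : Finset ι) (R : ι → Fin 2 → ZMod p), S.Nonempty →
    (∀ α : Fin 2 → ZMod p, α ≠ 0 →
      ‖∑ i ∈ S, (ZMod.stdAddChar (∑ j, α j * R i j) : ℂ)‖ ≤ S.card * (p : ℝ) ^ (-ε)) →
    ∀ (M : Fin 2 → ℤ) (L : Fin 2 → ℕ), (∀ j, L j ≤ p) → (∀ j, (p : ℝ) ^ δ ≤ L j) →
      (p : ℝ) ^ (2 - ε + δ) ≤ (L 0 : ℝ) * L 1 →
    (p : ℝ) ^ (-δ) * (S.card * ((L 0 : ℝ) * L 1 / p ^ 2)) ≤
      ((S.filter (fun i => ∃ z : Fin 2 → ℤ,
        (∀ j, M j < z j ∧ z j ≤ M j + L j ∧ ((z j : ℤ) : ZMod p) = R i j) ∧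
          Rich k κ δ p z)).card : ℝ) := by
  obtain ⟨κ, hκ, p₀, h⟩ := Pool.Agent.L7h72.NQ.mainF 2 (fun F : Pool.Agent.L7h72.NQ.NCk k => F.1)
    (Pool.Agent.L7h72.NQ.crit_NC k) δ hδ hδ1
  refine ⟨κ, hκ, p₀, ?_⟩
  intro p hpF hpp ε ι S R hS hE M L hL hLB hvol
  have h1 := h p hpp ε ι S R hS hE M L hL hLB (by
    rw [Fin.prod_univ_two]
    exact_mod_cast hvol)
  have e1 : ∏ j, ((L j : ℝ) / p) = (L 0 : ℝ) * L 1 / p ^ 2 := by
    rw [Fin.prod_univ_two]
    have hp0 : (p : ℝ) ≠ 0 := by exact_mod_cast (Fact.out : p.Prime).ne_zero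
    field_simp
  rw [e1] at h1
  refine h1.trans ?_
  have h2 : S.filter (fun i => ∃ z : Fin 2 → ℤ,
        (∀ j, M j < z j ∧ z j ≤ M j + L j ∧ ((z j : ℤ) : ZMod p) = R i j) ∧
          Pool.Agent.N542.PT.Good (fun F : Pool.Agent.L7h72.NQ.NCk k => F.1)
            (κ * Pool.Agent.W147.PS.ff p) ((p : ℝ) ^ δ) z) ⊆
      S.filter (fun i => ∃ z : Fin 2 → ℤ,
        (∀ j, M j < z j ∧ z j ≤ M j + L j ∧ ((z j : ℤ) : ZMod p) = R i j) ∧
          Rich k κ δ p z) := by
    intro i hi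
    rw [mem_filter] at hi ⊢
    obtain ⟨hi1, z, hz, hg⟩ := hi
    refine ⟨hi1, z, hz, fun F hF1 hF2 hF3 n hn => ?_⟩
    exact hg ⟨F, hF1, hF2, hF3⟩ n hn
  exact_mod_cast card_le_card h2

/-- from the criterion to points on curves modulo `p` -/
theorem many_of_family (k : ℕ) (δ : ℝ) (hδ : 0 < δ) (hδ1 : δ ≤ 1) :
    ∃ κ : ℝ, 0 < κ ∧ ∃ p₀ : ℕ, ∀ (p : ℕ) [Fact p.Prime], p₀ ≤ p →
    ∀ (ι : Type) (S : Finset ι) (R : ι → Fin 2 → ZMod p) (E : ZMod p → ZMod p → Prop), 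
    (p : ℝ) / 2 ≤ S.card → Set.InjOn R S → (∀ i ∈ S, E (R i 0) (R i 1)) → 
    (∀ α : Fin 2 → ZMod p, α ≠ 0 →
      ‖∑ i ∈ S, (ZMod.stdAddChar (∑ j, α j * R i j) : ℂ)‖ ≤ S.card * (p : ℝ) ^ (-(1 / 2 - δ / 4))) →
    ManyRich k κ δ p E := by
  classical
  obtain ⟨κ, hκ, p₀, h⟩ := main k (δ / 2) (by linarith) (by linarith)
  have e1 : ∀ᶠ x : ℝ in atTop, 2 ≤ x ^ (δ / 2) :=
    (tendsto_rpow_atTop (show (0 : ℝ) < δ / 2 by linarith)).eventually_ge_atTop 2
  obtain ⟨x₀, hx₀⟩ := eventually_atTop.mp (e1.and (eventually_gt_atTop (1 : ℝ)))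
  obtain ⟨p₁, hp₁⟩ := exists_nat_ge x₀
  refine ⟨κ, hκ, max p₀ p₁, ?_⟩
  intro p hpF hpp ι S R E hS hinj hE hR M L hL hvol
  obtain ⟨g1, g2⟩ := hx₀ p (hp₁.trans (by exact_mod_cast (le_max_right _ _).trans hpp))
  have hp0 : (0 : ℝ) < p := by linarith
  have hpos : ∀ x : ℝ, 0 < (p : ℝ) ^ x := fun x => Real.rpow_pos_of_pos hp0 x
  have hmo : ∀ x y : ℝ, x ≤ y → (p : ℝ) ^ x ≤ (p : ℝ) ^ y := fun x y h =>
    Real.rpow_le_rpow_of_exponent_le g2.le h
  have hLp : ∀ j, (L j : ℝ) ≤ p := fun j => by exact_mod_cast hL j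
  have hbig : ∀ x y : ℝ, 0 ≤ x → x ≤ p → 0 ≤ y → (p : ℝ) ^ (3 / 2 + δ) ≤ x * y → (p : ℝ) ^ (δ / 2) ≤ y := by
    intro x y hx hxp hy hxy
    have h1 : (p : ℝ) ^ (3 / 2 + δ) ≤ p * y := hxy.trans (mul_le_mul_of_nonneg_right hxp hy)
    have h2 : (p : ℝ) ^ (3 / 2 + δ) = p * (p : ℝ) ^ (1 / 2 + δ) := by
      rw [show (3 / 2 + δ : ℝ) = 1 + (1 / 2 + δ) by ring, Real.rpow_add hp0, Real.rpow_one]
    rw [h2] at h1
    have h3 : (p : ℝ) ^ (1 / 2 + δ) ≤ y := le_of_mul_le_mul_left h1 hp0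
    exact (hmo _ _ (by linarith)).trans h3
  have hSne : S.Nonempty := by
    rw [← card_pos]
    have : (0 : ℝ) < S.card := by linarith
    exact_mod_cast this
  have hm := h p ((le_max_left _ _).trans hpp) (1 / 2 - δ / 4) ι S R hSne hR M L hL
    (by
      intro j
      fin_cases j
      · exact hbig (L 1) (L 0) (by positivity) (hLp 1) (by positivity) (by
          show (p : ℝ) ^ (3 / 2 + δ) ≤ (L 1 : ℝ) * L 0
          rw [mul_comm]
          exact hvol)
      · exact hbig (L 0) (L 1) (by positivity) (hLp 0) (by positivity) hvol)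
    ((hmo _ _ (by linarith)).trans hvol)
  obtain ⟨T, hT⟩ : ∃ T : Finset ι, T = S.filter (fun i => ∃ z : Fin 2 → ℤ,
        (∀ j, M j < z j ∧ z j ≤ M j + L j ∧ ((z j : ℤ) : ZMod p) = R i j) ∧
          Rich k κ (δ / 2) p z) := ⟨_, rfl⟩
  rw [← hT] at hm
  have hTz : ∀ i ∈ T, ∃ z : Fin 2 → ℤ,
        (∀ j, M j < z j ∧ z j ≤ M j + L j ∧ ((z j : ℤ) : ZMod p) = R i j) ∧
          Rich k κ (δ / 2) p z := by
    intro i hi
    rw [hT, mem_filter] at hi
    exact hi.2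
  choose! z hz1 hz2 using hTz
  have hTS : ∀ i ∈ T, i ∈ S := by
    intro i hi
    rw [hT, mem_filter] at hi
    exact hi.1
  refine ⟨T.image z, ?_, ?_⟩
  · rw [card_image_of_injOn]
    · refine le_trans ?_ hm
      have e2 : (p : ℝ) ^ (-1 - δ) = (p : ℝ) ^ (-(δ / 2)) * ((p : ℝ) ^ (-(δ / 2)) * p) / p ^ 2 := by
        rw [eq_div_iff (by positivity), ← Real.rpow_natCast (p : ℝ) 2]
        calc (p : ℝ) ^ (-1 - δ) * (p : ℝ) ^ (((2 : ℕ) : ℝ))
            = (p : ℝ) ^ (-1 - δ + ((2 : ℕ) : ℝ)) := by rw [Real.rpow_add hp0]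
          _ = (p : ℝ) ^ (-(δ / 2) + (-(δ / 2) + 1)) := by
              congr 1
              push_cast
              ring
          _ = (p : ℝ) ^ (-(δ / 2)) * ((p : ℝ) ^ (-(δ / 2)) * p) := by
              rw [Real.rpow_add hp0, Real.rpow_add hp0 _ 1, Real.rpow_one]
      rw [e2]
      have h3 : (p : ℝ) ^ (-(δ / 2)) * p ≤ S.card := by
        have h4 : (p : ℝ) ^ (-(δ / 2)) ≤ 1 / 2 := by
          rw [Real.rpow_neg hp0.le, inv_eq_one_div]
          exact one_div_le_one_div_of_le (by norm_num) g1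
        calc (p : ℝ) ^ (-(δ / 2)) * p ≤ 1 / 2 * p := mul_le_mul_of_nonneg_right h4 hp0.le
          _ ≤ S.card := by linarith
      calc (p : ℝ) ^ (-(δ / 2)) * ((p : ℝ) ^ (-(δ / 2)) * p) / p ^ 2 * ((L 0 : ℝ) * L 1)
          = ((p : ℝ) ^ (-(δ / 2)) * p) * ((p : ℝ) ^ (-(δ / 2)) * ((L 0 : ℝ) * L 1 / p ^ 2)) := by ring
        _ ≤ S.card * ((p : ℝ) ^ (-(δ / 2)) * ((L 0 : ℝ) * L 1 / p ^ 2)) := by
            apply mul_le_mul_of_nonneg_right h3
            have := hpos (-(δ / 2))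
            positivity
        _ = (p : ℝ) ^ (-(δ / 2)) * (S.card * ((L 0 : ℝ) * L 1 / p ^ 2)) := by ring
    · intro i hi j hj hij
      apply hinj (hTS i hi) (hTS j hj)
      funext l
      rw [← (hz1 i hi l).2.2, ← (hz1 j hj l).2.2, hij]
  · intro y hy
    rw [mem_image] at hy
    obtain ⟨i, hi, rfl⟩ := hy
    refine ⟨fun j => ⟨(hz1 i hi j).1, (hz1 i hi j).2.1⟩, ?_, ?_⟩
    · rw [(hz1 i hi 0).2.2, (hz1 i hi 1).2.2]
      exact hE i (hTS i hi)
    · intro F hF1 hF2 hF3 n hn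
      obtain ⟨l, hl1, hl2, hl3⟩ := hz2 i hi F hF1 hF2 hF3 n hn
      exact ⟨l, hl1, hl2.trans (hmo _ _ (by linarith)), hl3⟩

/-- **Record prime gaps around all noncomposite polynomials at points of curves modulo a prime.** -/
theorem result (k : ℕ) (δ : ℝ) (hδ : 0 < δ) (hδ1 : δ ≤ 1) :
    ∃ κ : ℝ, 0 < κ ∧
      (∃ p₀ : ℕ, ∀ (p : ℕ) [Fact p.Prime], p₀ ≤ p →
        ∀ (ε : ℝ) (ι : Type) (S : Finset ι) (R : ι → Fin 2 → ZMod p), S.Nonempty →
        (∀ α : Fin 2 → ZMod p, α ≠ 0 →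
          ‖∑ i ∈ S, (ZMod.stdAddChar (∑ j, α j * R i j) : ℂ)‖ ≤ S.card * (p : ℝ) ^ (-ε)) →
        ∀ (M : Fin 2 → ℤ) (L : Fin 2 → ℕ), (∀ j, L j ≤ p) → (∀ j, (p : ℝ) ^ δ ≤ L j) →
          (p : ℝ) ^ (2 - ε + δ) ≤ (L 0 : ℝ) * L 1 →
        ∃ T ⊆ S, (p : ℝ) ^ (-δ) * (S.card * ((L 0 : ℝ) * L 1 / p ^ 2)) ≤ T.card ∧
          ∀ i ∈ T, ∃ z : Fin 2 → ℤ, (∀ j, M j < z j ∧ z j ≤ M j + L j ∧ ((z j : ℤ) : ZMod p) = R i j) ∧
            Rich k κ δ p z) ∧
      (∃ p₀ : ℕ, ∀ (p : ℕ) [Fact p.Prime], p₀ ≤ p → ∀ c : ZMod p, c ≠ 0 →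
        ManyRich k κ δ p (fun x y => x * y = c)) ∧
      (∀ P : Polynomial ℤ, 2 ≤ P.natDegree → ∃ p₀ : ℕ, ∀ (p : ℕ) [Fact p.Prime], p₀ ≤ p →
        ManyRich k κ δ p (fun x y => y = (P.map (Int.castRingHom (ZMod p))).eval x)) := by
  classical
  obtain ⟨κ₁, hκ₁, p₁, h₁⟩ := main k δ hδ hδ1
  obtain ⟨κ₂, hκ₂, p₂, h₂⟩ := many_of_family k δ hδ hδ1
  have hf : ∀ᶠ x : ℝ in atTop, 0 ≤ f x := by
    filter_upwards [eventually_gt_atTop (1 : ℝ), Real.tendsto_log_atTop.eventually_ge_atTop 1,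
      (Real.tendsto_log_atTop.comp (Real.tendsto_log_atTop.comp
        (Real.tendsto_log_atTop.comp Real.tendsto_log_atTop))).eventually_ge_atTop 1] with x h1 h2 h3
    have h4 : (1 : ℝ) ≤ Real.log (Real.log (Real.log (Real.log x))) := h3
    unfold f
    have h5 : (0 : ℝ) ≤ Real.log (Real.log (Real.log (Real.log x))) := by linarith
    have h6 : (0 : ℝ) ≤ Real.log x := by linarith
    positivity
  obtain ⟨x₁, hx₁⟩ := eventually_atTop.mp hf
  obtain ⟨p₃, hp₃⟩ := exists_nat_ge x₁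
  have hrich : ∀ p : ℕ, p₃ ≤ p → ∀ (κ κ' : ℝ), κ' ≤ κ → ∀ z, Rich k κ δ p z → Rich k κ' δ p z := by
    intro p hp κ κ' hκ z hz F hF1 hF2 hF3 n hn
    apply hz F hF1 hF2 hF3 n (hn.trans _)
    apply mul_le_mul_of_nonneg_right hκ
    exact hx₁ p (hp₃.trans (by exact_mod_cast hp))
  have hmany : ∀ p : ℕ, p₃ ≤ p → ∀ E : ZMod p → ZMod p → Prop, ManyRich k κ₂ δ p E →
      ManyRich k (min κ₁ κ₂) δ p E := by
    intro p hp E hE M L hL hvol
    obtain ⟨G, hG1, hG2⟩ := hE M L hL hvol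
    exact ⟨G, hG1, fun z hz => ⟨(hG2 z hz).1, (hG2 z hz).2.1,
      hrich p hp _ _ (min_le_right _ _) z (hG2 z hz).2.2⟩⟩
  refine ⟨min κ₁ κ₂, lt_min hκ₁ hκ₂, ⟨max p₁ p₃, ?_⟩, ?_, ?_⟩
  · intro p hpF hpp ε ι S R hS hE M L hL hLB hvol
    have h3 := h₁ p ((le_max_left _ _).trans hpp) ε ι S R hS hE M L hL hLB hvol
    refine ⟨_, filter_subset _ _, h3, fun i hi => ?_⟩
    rw [mem_filter] at hi
    obtain ⟨-, z, hz1, hz2⟩ := hi
    exact ⟨z, hz1, hrich p ((le_max_right _ _).trans hpp) _ _ (min_le_left _ _) z hz2⟩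
  · -- modular hyperbolas
    have e1 : ∀ᶠ x : ℝ in atTop, 4 ≤ x ^ (δ / 4) :=
      (tendsto_rpow_atTop (show (0 : ℝ) < δ / 4 by linarith)).eventually_ge_atTop 4
    obtain ⟨x₂, hx₂⟩ := eventually_atTop.mp (e1.and (eventually_ge_atTop (2 : ℝ)))
    obtain ⟨p₄, hp₄⟩ := exists_nat_ge x₂
    refine ⟨max (max p₂ p₃) p₄, ?_⟩
    intro p hpF hpp c hc
    obtain ⟨g1, g2⟩ := hx₂ p (hp₄.trans (by exact_mod_cast (le_max_right _ _).trans hpp))
    have hp0 : (0 : ℝ) < p := by linarith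
    apply hmany p ((le_max_right _ _).trans ((le_max_left _ _).trans hpp))
    have hcard : ((univ : Finset (ZMod p)ˣ).card : ℝ) = p - 1 := by
      rw [card_univ, ZMod.card_units_eq_totient, Nat.totient_prime hpF.out]
      rw [Nat.cast_sub hpF.out.one_le]
      simp
    have hsq : (p : ℝ) ^ (-(1 / 2 - δ / 4)) = (p : ℝ) ^ (δ / 4) / Real.sqrt p := by
      rw [Real.sqrt_eq_rpow, ← Real.rpow_sub hp0]
      congr 1
      ring
    have hs0 : 0 < Real.sqrt p := Real.sqrt_pos.2 hp0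
    have hss : Real.sqrt p * Real.sqrt p = p := Real.mul_self_sqrt hp0.le
    have hs1 : 1 ≤ Real.sqrt p := by
      rw [Real.one_le_sqrt]
      linarith
    have hB : 2 * Real.sqrt p ≤ ((univ : Finset (ZMod p)ˣ).card : ℝ) * (p : ℝ) ^ (-(1 / 2 - δ / 4)) := by
      rw [hcard, hsq, ← mul_div_assoc, le_div_iff₀ hs0]
      nlinarith
    apply h₂ p ((le_max_left _ _).trans ((le_max_left _ _).trans hpp)) (ZMod p)ˣ univ
      (fun x => ![(x : ZMod p), c * ((x⁻¹ : (ZMod p)ˣ) : ZMod p)])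
    · rw [hcard]
      linarith
    · intro x _ y _ hxy
      have h3 : (x : ZMod p) = (y : ZMod p) := congrFun hxy 0
      exact Units.ext h3
    · intro x _
      show (x : ZMod p) * (c * ((x⁻¹ : (ZMod p)ˣ) : ZMod p)) = c
      rw [mul_comm c, ← mul_assoc, Units.mul_inv, one_mul]
    · intro α hα
      refine le_trans ?_ hB
      have e2 : ∀ x : (ZMod p)ˣ, ∑ j, α j * (![(x : ZMod p), c * ((x⁻¹ : (ZMod p)ˣ) : ZMod p)] : Fin 2 → ZMod p) j =
          α 0 * (x : ZMod p) + (α 1 * c) * ((x⁻¹ : (ZMod p)ˣ) : ZMod p) := by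
        intro x
        rw [Fin.sum_univ_two]
        show α 0 * (x : ZMod p) + α 1 * (c * ((x⁻¹ : (ZMod p)ˣ) : ZMod p)) = _
        ring
      refine le_trans (le_of_eq (congrArg norm (sum_congr rfl fun x _ =>
        congrArg (fun y : ZMod p => (ZMod.stdAddChar y : ℂ)) (e2 x)))) ?_
      have hone : ∀ a : ZMod p, a ≠ 0 → ‖∑ x : (ZMod p)ˣ, (ZMod.stdAddChar (a * (x : ZMod p)) : ℂ)‖ ≤ 1 := by
        intro a ha
        have h3 : ∑ x : ZMod p, (ZMod.stdAddChar (a * x) : ℂ) = 0 := by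
          have := AddChar.sum_mulShift (R := ZMod p) a (ZMod.isPrimitive_stdAddChar p)
          rw [if_neg ha] at this
          simpa [mul_comm] using this
        have h4 : ∑ x : (ZMod p)ˣ, (ZMod.stdAddChar (a * (x : ZMod p)) : ℂ) =
            ∑ x ∈ (univ : Finset (ZMod p)).erase 0, (ZMod.stdAddChar (a * x) : ℂ) := by
          apply sum_bij (fun (x : (ZMod p)ˣ) _ => (x : ZMod p))
          · intro x _
            rw [mem_erase]
            exact ⟨x.ne_zero, mem_univ _⟩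
          · intro x _ y _ h
            exact Units.ext h
          · intro x hx
            rw [mem_erase] at hx
            exact ⟨Units.mk0 x hx.1, mem_univ _, rfl⟩
          · intro x _
            rfl
        have h5 := Finset.add_sum_erase (univ : Finset (ZMod p)) (fun x => (ZMod.stdAddChar (a * x) : ℂ))
          (mem_univ 0)
        rw [h3] at h5
        rw [h4]
        have h6 : ∑ x ∈ (univ : Finset (ZMod p)).erase 0, (ZMod.stdAddChar (a * x) : ℂ) = -1 := by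
          have h7 : (ZMod.stdAddChar (a * (0 : ZMod p)) : ℂ) = 1 := by simp
          rw [h7] at h5
          linear_combination h5
        rw [h6]
        simp
      by_cases h0 : α 0 = 0
      · have h1 : α 1 * c ≠ 0 := by
          apply mul_ne_zero _ hc
          intro h1
          apply hα
          funext j
          fin_cases j
          · exact h0
          · exact h1
        have e3 : ∑ x : (ZMod p)ˣ, (ZMod.stdAddChar (α 0 * (x : ZMod p) +
            (α 1 * c) * ((x⁻¹ : (ZMod p)ˣ) : ZMod p)) : ℂ) =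
            ∑ x : (ZMod p)ˣ, (ZMod.stdAddChar ((α 1 * c) * (x : ZMod p)) : ℂ) := by
          rw [← Equiv.sum_comp (Equiv.inv (ZMod p)ˣ)]
          apply sum_congr rfl
          intro x _
          show (ZMod.stdAddChar (α 0 * ((x⁻¹ : (ZMod p)ˣ) : ZMod p) +
            (α 1 * c) * ((((x⁻¹ : (ZMod p)ˣ))⁻¹ : (ZMod p)ˣ) : ZMod p)) : ℂ) = _
          rw [h0, zero_mul, zero_add, inv_inv]
        rw [e3]
        have := hone _ h1
        linarith
      · by_cases h1 : α 1 = 0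
        · have e3 : ∑ x : (ZMod p)ˣ, (ZMod.stdAddChar (α 0 * (x : ZMod p) +
              (α 1 * c) * ((x⁻¹ : (ZMod p)ˣ) : ZMod p)) : ℂ) =
              ∑ x : (ZMod p)ˣ, (ZMod.stdAddChar (α 0 * (x : ZMod p)) : ℂ) := by
            apply sum_congr rfl
            intro x _
            rw [h1, zero_mul, zero_mul, add_zero]
          rw [e3]
          have := hone _ h0
          linarith
        · exact Pool.Agent.H498R2.kloosterman_prime p (α 0) (α 1 * c) h0 (mul_ne_zero h1 hc)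
  · intro P hP
    obtain ⟨p₅, hp₅⟩ := Pool.Agent.Q224.NR.weilUV P hP
    have e1 : ∀ᶠ x : ℝ in atTop, (P.natDegree : ℝ) ≤ x ^ (δ / 4) :=
      (tendsto_rpow_atTop (show (0 : ℝ) < δ / 4 by linarith)).eventually_ge_atTop _
    obtain ⟨x₂, hx₂⟩ := eventually_atTop.mp (e1.and (eventually_ge_atTop (2 : ℝ)))
    obtain ⟨p₄, hp₄⟩ := exists_nat_ge x₂
    refine ⟨max (max p₂ p₃) (max p₄ p₅), ?_⟩
    intro p hpF hpp
    obtain ⟨g1, g2⟩ := hx₂ p (hp₄.trans (by
      exact_mod_cast ((le_max_left _ _).trans (le_max_right _ _)).trans hpp))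
    have hp0 : (0 : ℝ) < p := by linarith
    apply hmany p ((le_max_right _ _).trans ((le_max_left _ _).trans hpp))
    have hcard : ((univ : Finset (ZMod p)).card : ℝ) = p := by
      rw [card_univ, ZMod.card]
    have hsq : (p : ℝ) ^ (-(1 / 2 - δ / 4)) = (p : ℝ) ^ (δ / 4) / Real.sqrt p := by
      rw [Real.sqrt_eq_rpow, ← Real.rpow_sub hp0]
      congr 1
      ring
    have hs0 : 0 < Real.sqrt p := Real.sqrt_pos.2 hp0
    have hss : Real.sqrt p * Real.sqrt p = p := Real.mul_self_sqrt hp0.le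
    have hB : P.natDegree * Real.sqrt p ≤ ((univ : Finset (ZMod p)).card : ℝ) * (p : ℝ) ^ (-(1 / 2 - δ / 4)) := by
      rw [hcard, hsq, ← mul_div_assoc, le_div_iff₀ hs0, mul_assoc, hss, mul_comm (p : ℝ)]
      exact mul_le_mul_of_nonneg_right g1 hp0.le
    apply h₂ p ((le_max_left _ _).trans ((le_max_left _ _).trans hpp)) (ZMod p) univ
      (fun x => ![x, Pool.Agent.Q224.NR.pe P x])
    · rw [hcard]
      linarith
    · intro x _ y _ hxy
      exact congrFun hxy 0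
    · intro x _
      rfl
    · intro α hα
      refine le_trans ?_ hB
      have h3 := hp₅ p (((le_max_right _ _).trans (le_max_right _ _)).trans hpp) (α 0) (α 1)
      have h4 : ¬ (α 0 = 0 ∧ α 1 = 0) := by
        rintro ⟨h5, h6⟩
        apply hα
        funext j
        fin_cases j
        · exact h5
        · exact h6
      rw [if_neg h4, sub_zero] at h3
      refine le_trans (le_of_eq ?_) h3
      congr 1
      apply sum_congr rfl
      intro x _
      rw [Fin.sum_univ_two]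
      rfl

end Pool.Agent.Results.MP_c853c5_nt.NoncompositeModP
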