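import Pool.Agent.L7h34.DF.Disc

set_option autoImplicit false

/-! # Record prime gaps thicken to prime-free discs in all imaginary quadratic rings at once

For every `D` there are `c > 0` and `X₀` such that every interval `(M, M + X]` with `X ≥ X₀` contains an
integer `n` such that

* no prime number lies within `c f(X)` of `n`, `f` the record function
  `log X (log₂ X)² log₄ X / (log₃ X)²`;
* for every imaginary quadratic field whose discriminant is at most `D` in absolute value the disc of radius
  `√(c f(X))` around `n` contains no integer `n + α` of the field, `α` not rational, whose norm is a prime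
  number.

The elements `α` are given by their trace `t` and their norm `N`: `t² + d b² = 4 N` with `1 ≤ d ≤ D` and
`b ≠ 0`, and the norm of `n + α` is `n² + t n + N`. -/

namespace Pool.Agent.Results.MP_c853c5_nt.PrimeFreeDiscs

/-- the record function `log X (log₂ X)² log₄ X / (log₃ X)²` -/
noncomputable def f (X : ℝ) : ℝ :=
  Real.log X * (Real.log (Real.log X)) ^ 2 * Real.log (Real.log (Real.log (Real.log X))) /
    (Real.log (Real.log (Real.log X))) ^ 2

theorem result (D : ℕ) : ∃ c : ℝ, 0 < c ∧ ∃ X₀ : ℝ, ∀ X : ℝ, X₀ ≤ X → ∀ M : ℕ,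
    ∃ n : ℕ, M < n ∧ (n : ℝ) ≤ M + X ∧
      (∀ q : ℕ, q.Prime → c * f X < |(q : ℝ) - n|) ∧
      ∀ d : ℕ, 1 ≤ d → d ≤ D → ∀ t b N : ℤ, b ≠ 0 → t ^ 2 + d * b ^ 2 = 4 * N →
        (N : ℝ) ≤ c * f X → ¬ Prime ((n : ℤ) ^ 2 + t * n + N) :=
  Pool.Agent.L7h34.DF.discs D

end Pool.Agent.Results.MP_c853c5_nt.PrimeFreeDiscs
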